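import Mathlib
import Pool.Agent.Helper832.GDStmt
import Pool.Agent.H570Z.VolDefs
import Pool.Agent.H570Z.VolC

set_option autoImplicit false

namespace Pool.Agent.Results.MP_b3f6df_an.AllInfinite

open Pool.Agent.Helper832.GS Pool.Agent.H570Z

/-- The small dimension, the global dimension and the bidimension of the Volterra algebra
`L¹[0,1]` are all infinite. -/
theorem result : ds Volterra = ⊤ ∧ dg Volterra = ⊤ ∧ db Volterra = ⊤ :=
  volterra_dims

end Pool.Agent.Results.MP_b3f6df_an.AllInfinite
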